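import Pool.Agent.X160.Tr.Iso
set_option autoImplicit false

/-!
# From tubes to boxes, for all exponents
-/

open MeasureTheory Set Filter Topology ENNReal NNReal Metric

namespace Pool.Agent.X160.Tr

open Pool.Agent.X160.Pf (Vec Base Space tube dir mult finrank_base)
open Pool.Agent.H810R3.Tub (wv wv_pos)

variable {m : ℕ}

/-- The exponent. -/
noncomputable def qe (m : ℕ) (ε : ℝ) : ℝ :=
  (((m + 1 : ℕ) : ℝ) + 1) / (((m + 1 : ℕ) : ℝ) - min ε (1 / 2))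

theorem qe_facts (hm : 1 ≤ m) {ε : ℝ} (hε : 0 < ε) :
    1 < qe m ε ∧ ((m : ℝ) + 2) / (m + 1) < qe m ε ∧
      ((m + 1 : ℕ) : ℝ) * qe m ε - ((m + 1 : ℕ) : ℝ) - 1 = min ε (1 / 2) * qe m ε := by
  set d : ℝ := ((m + 1 : ℕ) : ℝ) with hd
  have hd1 : 1 ≤ d := by
    rw [hd]
    exact_mod_cast Nat.succ_le_succ (Nat.zero_le m)
  set η : ℝ := min ε (1 / 2) with hη
  have hη0 : 0 < η := lt_min hε (by norm_num)
  have hη2 : η ≤ 1 / 2 := min_le_right _ _
  have hdη : 0 < d - η := by linarith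
  have hq : qe m ε = (d + 1) / (d - η) := rfl
  refine ⟨?_, ?_, ?_⟩
  · rw [hq, lt_div_iff₀ hdη]
    linarith
  · have e : ((m : ℝ) + 2) / (m + 1) = (d + 1) / d := by
      rw [hd]; push_cast; congr 1; ring
    rw [e, hq]
    apply div_lt_div_of_pos_left (by positivity) hdη
    linarith
  · have : qe m ε * (d - η) = d + 1 := div_mul_cancel₀ _ hdη.ne'
    linarith

/-- The caps have centres `ω i` in the closed unit ball of `ℝ^(m+1)`, `σ/N`-separated and at least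
`κ N^(m+1)` in number, and `f i` is an orthonormal frame of the orthogonal complement of the normal
at `ω i`. -/
def Caps {ι : Type} [Fintype ι] (σ κ N : ℝ) (ω : ι → Base m) (f : ι → Fin (m + 1) → Space m) :
    Prop :=
  (∀ i, ‖ω i‖ ≤ 1) ∧ (∀ i j, i ≠ j → σ / N ≤ ‖ω i - ω j‖) ∧
    κ * N ^ (m + 1) ≤ (Fintype.card ι : ℝ) ∧
    ∀ i, Orthonormal ℝ (Fin.cons (nor (ω i)) (f i) : Fin (m + 2) → Space m)

/-- **From tubes to boxes.** -/
theorem boxes (hm : 1 ≤ m) {ε σ κ E₀ : ℝ} (hε : 0 < ε) (hσ : 0 < σ) (hσ1 : σ ≤ 1) (hκ : 0 < κ)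
    (hE₀ : 0 < E₀) : ∃ C : ℝ, 0 < C ∧ ∀ N X : ℝ, 1 ≤ N → 1 ≤ X → ∀ (ι : Type) [Fintype ι]
      (ω : ι → Base m) (f : ι → Fin (m + 1) → Space m) (a : ι → Space m), Caps σ κ N ω f →
      ∫⁻ y : Space m, ‖mult (σ / (2 * N)) ω (fun i => scl (cs m σ N) (a i)) y‖ₑ ^ (qe m ε) ≤
        ENNReal.ofReal (E₀ * X * (σ / (2 * N)) ^ ((m : ℝ) + 1) *
          (Fintype.card ι : ℝ) ^ (qe m ε - 1 / ((m : ℝ) + 1))) →
      ∀ p : ℝ≥0∞, 1 ≤ p → eLpNorm (boxSum N ω f a) p volume ≤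
        ENNReal.ofReal (C * X * N ^ ε) * eLpNorm (boxSum N ω f 0) p volume := by
  obtain ⟨hq1, hqc, hηq⟩ := qe_facts hm hε
  set q : ℝ := qe m ε with hq
  set d : ℕ := m + 1 with hd
  have hdr : (d : ℝ) = (m : ℝ) + 1 := by rw [hd]; push_cast; ring
  have hd0 : (0 : ℝ) < d := by rw [hdr]; positivity
  have hηε : min ε (1 / 2) ≤ ε := min_le_left _ _
  have hq0 : 0 < q := by linarith
  have hw0 : 0 < wv d := wv_pos d
  set b₀ : ℝ := (1 + (d : ℝ)) ^ (d + 1) * wv d with hb₀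
  have hb0 : 0 < b₀ := by positivity
  set E : ℝ := 2 ^ d * ((1 + (d : ℝ)) / σ) ^ (d + 1) * E₀ * (σ / 2) ^ d with hE
  have hE0 : 0 < E := by positivity
  set C0 : ℝ := max 1 (max (E * b₀ ^ (q - 1) * κ ^ (-(1 / (d : ℝ))))
    (E * κ ^ (-(1 / (d : ℝ))) * 2 ^ (d + 1) / wv d)) with hC0
  have hC1 : 1 ≤ C0 := le_max_left _ _
  have hC2 : E * b₀ ^ (q - 1) * κ ^ (-(1 / (d : ℝ))) ≤ C0 := (le_max_left _ _).trans (le_max_right _ _)
  have hC3 : E * κ ^ (-(1 / (d : ℝ))) * 2 ^ (d + 1) / wv d ≤ C0 := (le_max_right _ _).trans (le_max_right _ _)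
  have hC00 : 0 < C0 := by linarith
  refine ⟨C0 ^ (1 / q), Real.rpow_pos_of_pos hC00 _, ?_⟩
  intro N X hN hX1 ι _ ω f a ⟨hω, hsep, hcard, hf⟩ hint p hp
  have hN0 : 0 < N := by linarith
  have hX0 : 0 < X := by linarith
  have hc0 : (0 : ℝ) < (Fintype.card ι : ℝ) := lt_of_lt_of_le (by positivity) hcard
  have hne : Nonempty ι := by
    rw [← Fintype.card_pos_iff]
    exact_mod_cast hc0
  set D : ℝ := C0 ^ (1 / q) * X ^ (1 / q) * N ^ ε with hD
  have hD1 : 1 ≤ D := by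
    have h1 : 1 ≤ C0 ^ (1 / q) := Real.one_le_rpow hC1 (by positivity)
    have h2 : 1 ≤ X ^ (1 / q) := Real.one_le_rpow hX1 (by positivity)
    have h3 : 1 ≤ N ^ ε := Real.one_le_rpow hN hε.le
    calc (1 : ℝ) = 1 * 1 * 1 := by ring
      _ ≤ C0 ^ (1 / q) * X ^ (1 / q) * N ^ ε := by gcongr
  have hDq : D ^ q = C0 * X * N ^ (ε * q) := by
    rw [hD, Real.mul_rpow (by positivity) (by positivity), Real.mul_rpow (by positivity) (by positivity),
      ← Real.rpow_mul hC00.le, ← Real.rpow_mul hX0.le, ← Real.rpow_mul hN0.le,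
      one_div_mul_cancel hq0.ne', Real.rpow_one, Real.rpow_one]
  set Q : ℝ := E * X * N ^ (d + 2) * (Fintype.card ι : ℝ) ^ (q - 1 / d) with hQ
  have hQ0 : 0 < Q := by positivity
  have hpush := push hm hσ hσ1 hN hq0 ω f hf a
  have hQi' : ∫⁻ y : Space m, ‖boxSum N ω f a y‖ₑ ^ q ≤ ENNReal.ofReal Q := by
    refine hpush.trans ((mul_le_mul' le_rfl hint).trans ?_)
    rw [← ENNReal.ofReal_mul (by positivity)]
    apply ENNReal.ofReal_le_ofReal
    apply le_of_eq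
    rw [hQ, hE, ← hdr, Real.rpow_natCast]
    have e3 : (σ / (2 * N)) ^ d * N ^ d = (σ / 2) ^ d := by
      rw [← mul_pow]
      congr 1
      field_simp
    calc 2 ^ d * ((1 + (d : ℝ)) / σ) ^ (d + 1) * N ^ (2 * (d + 1)) *
          (E₀ * X * (σ / (2 * N)) ^ d * (Fintype.card ι : ℝ) ^ (q - 1 / (d : ℝ)))
        = 2 ^ d * ((1 + (d : ℝ)) / σ) ^ (d + 1) * E₀ * ((σ / (2 * N)) ^ d * N ^ d) * X *
          N ^ (d + 2) * (Fintype.card ι : ℝ) ^ (q - 1 / (d : ℝ)) := by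
          rw [show 2 * (d + 1) = d + (d + 2) by ring, pow_add N d (d + 2)]
          ring
      _ = _ := by rw [e3]
  -- the other model
  set ω' : ι → Vec d := fun i => e0 m (ω i) with hω'
  set f' : ι → Fin d → Pool.Agent.H810R3.Tub.Space d := fun i j => eS m (f i j) with hf'
  have hf2 : ∀ i, Orthonormal ℝ (Fin.cons (Pool.Agent.H810R3.Tub.nor (ω' i)) (f' i) :
      Fin (d + 1) → Pool.Agent.H810R3.Tub.Space d) := fun i => ortho (hf i)
  have hQi : ∫⁻ y, Pool.Agent.H810R3.Tub.Fb N ω' f' (fun i => eS m (a i)) y ^ q ≤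
      ENNReal.ofReal Q := by
    refine le_trans (le_of_eq ?_) hQi'
    have hm1 : Measurable (fun y => Pool.Agent.H810R3.Tub.Fb N ω' f' (fun i => eS m (a i)) y ^ q) :=
      (Pool.Agent.H810R3.Tub.Fb_measurable _ _ _ _).pow_const _
    rw [← (eS_mp (m := m)).lintegral_comp hm1]
    apply lintegral_congr
    intro y
    rw [boxSum_eq, ← Pool.Agent.H810R3.Tub.enorm_sum_box]
  have hDX : ENNReal.ofReal D ≤ ENNReal.ofReal (C0 ^ (1 / q) * X * N ^ ε) := by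
    apply ENNReal.ofReal_le_ofReal
    have h1 : X ^ (1 / q) ≤ X := by
      calc X ^ (1 / q) ≤ X ^ (1 : ℝ) := by
            apply Real.rpow_le_rpow_of_exponent_le hX1
            rw [div_le_one hq0]
            exact hq1.le
        _ = X := Real.rpow_one X
    rw [hD]
    gcongr
  rw [eLpNorm_boxSum, eLpNorm_boxSum]
  refine le_trans (Pool.Agent.H810R3.Tub.compare d hN hq1 hQ0 hD1 ω' f' hf2
    (fun i => eS m (a i)) hQi ?_ ?_ p hp) ?_
  · rw [hDq]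
    exact Pool.Agent.H810R3.Tub.arith1 hd0 hE0 hX0 hq1 hηq hηε hN hκ hcard hb0 hC2
  · rw [hDq]
    exact Pool.Agent.H810R3.Tub.arith2 hd0 hE0 hX0 hq1 hε hN hκ hcard hw0 hC3
  · refine mul_le_mul' hDX (le_of_eq ?_)
    congr 1
    funext z
    refine Finset.sum_congr rfl fun i _ => ?_
    have h0 : eS m ((0 : ι → Space m) i) = 0 := map_zero _
    rw [h0]

end Pool.Agent.X160.Tr
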