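import Pool.Agent.X160.Tr.Plane
set_option autoImplicit false

/-!
# The comparison with the centred family for boxes carried by families of planes
-/

open MeasureTheory Set Filter Topology ENNReal NNReal Metric

namespace Pool.Agent.X160.Tr

open Pool.Agent.X160.Pf Pool.Agent.X160.Ps

variable {m : ℕ}

theorem r_facts (hm : 1 ≤ m) {ε : ℝ} (hε : 0 < ε) :
    1 < ((m : ℝ) + 1) * min (qe m ε - 1) 1 ∧ min (qe m ε - 1) 1 ≤ 1 ∧
      min (qe m ε - 1) 1 + 1 ≤ qe m ε ∧ 0 ≤ min (qe m ε - 1) 1 := by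
  have hm0 : (0 : ℝ) < m := by exact_mod_cast hm
  obtain ⟨hq1, hqc, _⟩ := qe_facts hm hε
  set q := qe m ε with hq
  have hd0 : (0 : ℝ) < (m : ℝ) + 1 := by positivity
  have hq1 : 1 < ((m : ℝ) + 1) * (q - 1) := by
    rw [div_lt_iff₀ hd0] at hqc
    linarith
  refine ⟨?_, min_le_right _ _, ?_, ?_⟩
  · rcases le_total (q - 1) 1 with h | h
    · rw [min_eq_left h]; exact hq1
    · rw [min_eq_right h]; linarith
  · have : min (q - 1) 1 ≤ q - 1 := min_le_left _ _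
    linarith
  · exact le_min (by linarith) zero_le_one

/-- **Boxes carried by a Lipschitz family of planes of bounded overlap.** -/
theorem plane_boxes (hm : 1 ≤ m) {ε σ κ : ℝ} (hε : 0 < ε) (hσ : 0 < σ) (hσ1 : σ ≤ 1) (hκ : 0 < κ) :
    ∃ C : ℝ, 0 < C ∧ ∀ (M : ℕ) (A K θ : ℝ) (S : Set (Vec m)) (α β γ : Vec m → Vec m), 0 ≤ A →
      0 ≤ K → 0 < θ → MeasurableSet S → (∃ L : ℝ≥0, LipschitzOnWith L α S ∧
        LipschitzOnWith L β S ∧ LipschitzOnWith L γ S) → (∀ s ∈ S, ‖γ s‖ ≤ A) →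
      OverlapLE M univ S α β γ → ∀ N : ℝ, 1 ≤ N → ∀ (ι : Type) [Fintype ι] (ω : ι → Base m)
        (f : ι → Fin (m + 1) → Space m) (a : ι → Space m), Caps σ κ N ω f →
      (∀ i, CarriedBox θ (σ / (4 * N)) K N S α β γ (ω i) (a i)) →
      ∀ p : ℝ≥0∞, 1 ≤ p → eLpNorm (boxSum N ω f a) p volume ≤
        ENNReal.ofReal (C * ((1 + M) * θ⁻¹ * (1 + K + A) ^ (4 * m)) * N ^ ε) *
          eLpNorm (boxSum N ω f 0) p volume := by
  have hm0 : (0 : ℝ) < m := by exact_mod_cast hm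
  obtain ⟨hr, hr1, hrq, hr0⟩ := r_facts hm hε
  set r : ℝ := min (qe m ε - 1) 1 with hrdef
  have hE₀ : 0 < max (Cf m r) 1 := lt_of_lt_of_le one_pos (le_max_right _ _)
  obtain ⟨C, hC0, hC⟩ := boxes hm hε hσ hσ1 hκ hE₀
  refine ⟨C, hC0, ?_⟩
  intro M A K θ S α β γ hA hK hθ hS ⟨L, hα, hβ, hγ⟩ hγA hO N hN ι _ ω f a hcaps hc p hp
  have hN0 : 0 < N := by linarith
  have hM0 : (0 : ℝ) ≤ M := Nat.cast_nonneg _
  have hδ0 : 0 < σ / (2 * N) := by positivity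
  have hδ1 : σ / (2 * N) < 1 := by
    rw [div_lt_one (by positivity)]
    linarith
  have hne : Nonempty ι := by
    rw [← Fintype.card_pos_iff]
    have h1 : (0 : ℝ) < (Fintype.card ι : ℝ) :=
      lt_of_lt_of_le (by positivity) hcaps.2.2.1
    exact_mod_cast h1
  have hc' : ∀ i, Carried θ (σ / (2 * N)) K S (fun s => -(kap m σ) • α s)
      (fun s => -(1 / 2 : ℝ) • β s) γ (ω i) (scl (cs m σ N) (a i)) :=
    fun i => carried_scl hσ hN hK (hc i)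
  have hθ1 : θ ≤ 1 := theta_le_one hδ0 (hc' hne.some)
  have hk1 := kap_le (m := m) hσ1
  have hk0 := kap_pos (m := m) hσ
  have hlip : ∀ (t : ℝ) (b : Vec m → Vec m), |t| ≤ 1 → LipschitzOnWith L b S →
      LipschitzOnWith L (fun s => t • b s) S := by
    intro t b ht hb
    apply LipschitzOnWith.of_dist_le_mul
    intro x hx y hy
    have h1 := hb.dist_le_mul x hx y hy
    rw [dist_smul₀, Real.norm_eq_abs]
    calc |t| * dist (b x) (b y) ≤ 1 * dist (b x) (b y) :=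
          mul_le_mul_of_nonneg_right ht dist_nonneg
      _ ≤ _ := by rw [one_mul]; exact h1
  have hint := int_planes hm hr hr1 hrq hK hθ hδ0 hδ1 hA hS
    (hlip (-(kap m σ)) α (by rw [abs_neg, abs_of_pos hk0]; exact hk1) hα)
    (hlip (-(1 / 2 : ℝ)) β (by norm_num) hβ) hγ hγA (overlap_scl hσ hO) ω
    (fun i => scl (cs m σ N) (a i)) hcaps.1
    (fun i j hij => by
      refine le_trans ?_ (hcaps.2.1 i j hij)
      apply div_le_div_of_nonneg_left hσ.le hN0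
      linarith) hc'
  have hθi : 1 ≤ θ⁻¹ := (one_le_inv₀ hθ).2 hθ1
  have hKA : (1 : ℝ) ≤ (1 + K + A) ^ (4 * m) := one_le_pow₀ (by linarith)
  have hX1 : 1 ≤ (1 + (M : ℝ)) * θ⁻¹ * (1 + K + A) ^ (4 * m) := by
    calc (1 : ℝ) = 1 * 1 * 1 := by ring
      _ ≤ _ := by gcongr; linarith
  refine hC N _ hN hX1 ι ω f a hcaps (hint.trans (ENNReal.ofReal_le_ofReal ?_)) p hp
  have h1 : Cf m r ≤ max (Cf m r) 1 := le_max_left _ _
  have h2 : (1 + (M : ℝ)) ^ r ≤ 1 + M := by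
    calc (1 + (M : ℝ)) ^ r ≤ (1 + (M : ℝ)) ^ (1 : ℝ) :=
          Real.rpow_le_rpow_of_exponent_le (by linarith) hr1
      _ = _ := Real.rpow_one _
  have h3 : θ ^ (-(1 / ((m : ℝ) + 1))) ≤ θ⁻¹ := by
    rw [← Real.rpow_neg_one]
    apply Real.rpow_le_rpow_of_exponent_ge hθ hθ1
    rw [neg_le_neg_iff, div_le_one (by positivity)]
    linarith
  calc Cf m r * (1 + M) ^ r * θ ^ (-(1 / ((m : ℝ) + 1))) * (1 + K + A) ^ (4 * m) *
        (σ / (2 * N)) ^ ((m : ℝ) + 1) *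
        (Fintype.card ι : ℝ) ^ (qe m ε - 1 / ((m : ℝ) + 1))
      ≤ max (Cf m r) 1 * (1 + M) * θ⁻¹ * (1 + K + A) ^ (4 * m) *
        (σ / (2 * N)) ^ ((m : ℝ) + 1) *
        (Fintype.card ι : ℝ) ^ (qe m ε - 1 / ((m : ℝ) + 1)) := by gcongr
    _ = _ := by ring

end Pool.Agent.X160.Tr
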