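import Pool.Agent.H810R3.Tub.Compare
import Pool.Agent.X160.Pf.Fin
set_option autoImplicit false

/-!
# Boxes in `ℝ^(m+2) = (ℝ^m × ℝ) × ℝ`
-/

open MeasureTheory Set Filter Topology ENNReal NNReal Metric

namespace Pool.Agent.X160.Tr

open Pool.Agent.X160.Pf (Vec Base Space tube dir mult finrank_base)

variable {m : ℕ}

/-- the other model of the space of slopes -/
noncomputable def e0 (m : ℕ) : Base m ≃ₗᵢ[ℝ] Vec (m + 1) :=
  (stdOrthonormalBasis ℝ (Base m)).equiv (EuclideanSpace.basisFun (Fin (m + 1)) ℝ)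
    (finCongr (finrank_base m))

/-- the other model of the space -/
noncomputable def eS (m : ℕ) : Space m ≃ₗᵢ[ℝ] Pool.Agent.H810R3.Tub.Space (m + 1) :=
  LinearIsometryEquiv.withLpProdCongr 2 (e0 m) (LinearIsometryEquiv.refl ℝ ℝ)

theorem eS_apply (x : Space m) : eS m x = WithLp.toLp 2 (e0 m x.fst, x.snd) := rfl

/-- The unit normal `(-2ω, 1)/√(1+4|ω|²)` of the paraboloid at the point `(ω, |ω|²)`. -/
noncomputable def nor (ω : Base m) : Space m := dir (-(2 : ℝ) • ω)

/-- The box with centre `a`, side `N²` in the direction `u` and sides `N` in the directions `f j`. -/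
def box (N : ℝ) (u : Space m) (f : Fin (m + 1) → Space m) (a : Space m) : Set (Space m) :=
  {y | |inner ℝ u (y - a)| ≤ N ^ 2 / 2 ∧ ∀ j, |inner ℝ (f j) (y - a)| ≤ N / 2}

theorem eS_dir (v : Base m) : eS m (dir v) = Pool.Agent.H810R3.Tub.dir (e0 m v) := by
  unfold dir Pool.Agent.H810R3.Tub.dir
  rw [map_smul, eS_apply, (e0 m).norm_map]
  rfl

theorem eS_nor (ω : Base m) : eS m (nor ω) = Pool.Agent.H810R3.Tub.nor (e0 m ω) := by
  unfold nor Pool.Agent.H810R3.Tub.nor
  rw [eS_dir, map_smul]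

theorem mem_box (N : ℝ) (u : Space m) (f : Fin (m + 1) → Space m) (a y : Space m) :
    y ∈ box N u f a ↔
      eS m y ∈ Pool.Agent.H810R3.Tub.box N (eS m u) (fun j => eS m (f j)) (eS m a) := by
  unfold box Pool.Agent.H810R3.Tub.box
  simp only [mem_ofPred_eq, ← map_sub, LinearIsometryEquiv.inner_map_map]

theorem mem_tube (δ : ℝ) (u a y : Space m) :
    y ∈ tube δ u a ↔ eS m y ∈ Pool.Agent.H810R3.Tub.tube δ (eS m u) (eS m a) := by
  unfold tube Pool.Agent.H810R3.Tub.tube
  simp only [mem_ofPred_eq, ← map_sub, LinearIsometryEquiv.inner_map_map, ← map_smul,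
    LinearIsometryEquiv.norm_map]

/-- The linear map that maps boxes to tubes. -/
noncomputable def scl (c : ℝ) (y : Space m) : Space m :=
  WithLp.toLp 2 (-(c / 2) • y.fst, c * y.snd)

theorem eS_scl (c : ℝ) (y : Space m) : eS m (scl c y) = Pool.Agent.H810R3.Tub.scl c (eS m y) := by
  unfold scl Pool.Agent.H810R3.Tub.scl
  rw [eS_apply, eS_apply]
  congr 1
  exact Prod.ext (by simp) rfl

theorem ortho {ω : Base m} {f : Fin (m + 1) → Space m}
    (h : Orthonormal ℝ (Fin.cons (nor ω) f : Fin (m + 2) → Space m)) :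
    Orthonormal ℝ (Fin.cons (Pool.Agent.H810R3.Tub.nor (e0 m ω)) (fun j => eS m (f j)) :
      Fin (m + 1 + 1) → Pool.Agent.H810R3.Tub.Space (m + 1)) := by
  have h1 := h.comp_linearIsometryEquiv (eS m)
  convert h1 using 1
  funext j
  refine Fin.cases ?_ (fun j => ?_) j
  · simp [eS_nor]
  · simp

theorem scl_box {N c δ : ℝ} (hN : 1 ≤ N) (hc : 0 < c)
    (h1 : c * (N ^ 2 / 2 + ((m + 1 : ℕ) : ℝ) * N / 2) ≤ 1 / 2)
    (h2 : c * (((m + 1 : ℕ) : ℝ) * N / 2) ≤ δ) {ω : Base m} {f : Fin (m + 1) → Space m}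
    (h : Orthonormal ℝ (Fin.cons (nor ω) f : Fin (m + 2) → Space m)) {a y : Space m}
    (hy : y ∈ box N (nor ω) f a) : scl c y ∈ tube δ (dir ω) (scl c a) := by
  rw [mem_box, eS_nor] at hy
  rw [mem_tube, eS_dir, eS_scl, eS_scl]
  exact Pool.Agent.H810R3.Tub.scl_box hN hc h1 h2 (ortho h) hy

theorem eS_mp : MeasurePreserving (eS m) volume volume := (eS m).measurePreserving

/-- The sum of the indicators of the boxes. -/
noncomputable def boxSum {ι : Type} [Fintype ι] (N : ℝ) (ω : ι → Base m)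
    (f : ι → Fin (m + 1) → Space m) (a : ι → Space m) (y : Space m) : ℝ :=
  ∑ i, (box N (nor (ω i)) (f i) (a i)).indicator (fun _ => (1 : ℝ)) y

theorem boxSum_eq {ι : Type} [Fintype ι] (N : ℝ) (ω : ι → Base m)
    (f : ι → Fin (m + 1) → Space m) (a : ι → Space m) (y : Space m) :
    boxSum N ω f a y = (fun z : Pool.Agent.H810R3.Tub.Space (m + 1) => ∑ i,
      (Pool.Agent.H810R3.Tub.box N (Pool.Agent.H810R3.Tub.nor (e0 m (ω i)))
        (fun j => eS m (f i j)) (eS m (a i))).indicator (fun _ => (1 : ℝ)) z) (eS m y) := by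
  unfold boxSum
  refine Finset.sum_congr rfl fun i _ => ?_
  have h := mem_box N (nor (ω i)) (f i) (a i) y
  rw [eS_nor] at h
  by_cases hy : y ∈ box N (nor (ω i)) (f i) (a i)
  · rw [indicator_of_mem hy, indicator_of_mem (h.1 hy)]
  · rw [indicator_of_notMem hy, indicator_of_notMem (fun h' => hy (h.2 h'))]

theorem box_closed (N : ℝ) (u : Space m) (f : Fin (m + 1) → Space m) (a : Space m) :
    IsClosed (box N u f a) := by
  have h1 : Continuous (fun y : Space m => |inner ℝ u (y - a)|) := by fun_prop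
  have h2 : ∀ j, Continuous (fun y : Space m => |inner ℝ (f j) (y - a)|) := fun j => by fun_prop
  have e : box N u f a = {y | |inner ℝ u (y - a)| ≤ N ^ 2 / 2} ∩
      ⋂ j, {y | |inner ℝ (f j) (y - a)| ≤ N / 2} := by
    ext y
    simp [box]
  rw [e]
  exact (isClosed_le h1 continuous_const).inter
    (isClosed_iInter fun j => isClosed_le (h2 j) continuous_const)

theorem eLpNorm_boxSum {ι : Type} [Fintype ι] (N : ℝ) (ω : ι → Base m)
    (f : ι → Fin (m + 1) → Space m) (a : ι → Space m) (p : ℝ≥0∞) :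
    eLpNorm (boxSum N ω f a) p volume =
      eLpNorm (fun z : Pool.Agent.H810R3.Tub.Space (m + 1) => ∑ i,
      (Pool.Agent.H810R3.Tub.box N (Pool.Agent.H810R3.Tub.nor (e0 m (ω i)))
        (fun j => eS m (f i j)) (eS m (a i))).indicator (fun _ => (1 : ℝ)) z) p volume := by
  have hm : Measurable (fun z : Pool.Agent.H810R3.Tub.Space (m + 1) => ∑ i,
      (Pool.Agent.H810R3.Tub.box N (Pool.Agent.H810R3.Tub.nor (e0 m (ω i)))
        (fun j => eS m (f i j)) (eS m (a i))).indicator (fun _ => (1 : ℝ)) z) := by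
    apply Finset.measurable_fun_sum
    intro i _
    exact measurable_const.indicator (Pool.Agent.H810R3.Tub.box_closed _ _ _ _).measurableSet
  have h1 := eLpNorm_comp_measurePreserving (p := p) hm.aestronglyMeasurable (eS_mp (m := m))
  rw [← h1]
  congr 1
  funext y
  exact boxSum_eq N ω f a y

/-- The constants of the scaling. -/
noncomputable def cs (m : ℕ) (σ N : ℝ) : ℝ := σ / ((1 + ((m + 1 : ℕ) : ℝ)) * N ^ 2)

/-- **From boxes to tubes.** -/
theorem push (hm : 1 ≤ m) {σ N q : ℝ} (hσ : 0 < σ) (hσ1 : σ ≤ 1) (hN : 1 ≤ N) (hq : 0 < q)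
    {ι : Type} [Fintype ι] (ω : ι → Base m) (f : ι → Fin (m + 1) → Space m)
    (hf : ∀ i, Orthonormal ℝ (Fin.cons (nor (ω i)) (f i) : Fin (m + 2) → Space m))
    (a : ι → Space m) :
    ∫⁻ y : Space m, ‖boxSum N ω f a y‖ₑ ^ q ≤
      ENNReal.ofReal (2 ^ (m + 1) * ((1 + ((m + 1 : ℕ) : ℝ)) / σ) ^ (m + 2) * N ^ (2 * (m + 2))) *
        ∫⁻ y : Space m, ‖mult (σ / (2 * N)) ω (fun i => scl (cs m σ N) (a i)) y‖ₑ ^ q := by
  have hN0 : 0 < N := by linarith
  set d : ℝ := ((m + 1 : ℕ) : ℝ) with hd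
  have hd0 : 0 < d := by rw [hd]; positivity
  set c : ℝ := cs m σ N with hc
  have hcd : c = σ / ((1 + d) * N ^ 2) := rfl
  have hc0 : 0 < c := by rw [hcd]; positivity
  set δ : ℝ := σ / (2 * N) with hδ
  have hcN : c * N ^ 2 = σ / (1 + d) := by
    rw [hcd]; field_simp
  have hc1 : c * (N ^ 2 / 2 + d * N / 2) ≤ 1 / 2 := by
    have h1 : N ^ 2 / 2 + d * N / 2 ≤ (1 + d) * N ^ 2 / 2 := by
      nlinarith [mul_nonneg hd0.le (sub_nonneg.2 hN)]
    calc c * (N ^ 2 / 2 + d * N / 2) ≤ c * ((1 + d) * N ^ 2 / 2) := mul_le_mul_of_nonneg_left h1 hc0.le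
      _ = (c * N ^ 2) * (1 + d) / 2 := by ring
      _ = σ / 2 := by rw [hcN]; field_simp
      _ ≤ 1 / 2 := by linarith
  have hc2 : c * (d * N / 2) ≤ δ := by
    have h1 : c * (d * N / 2) = (σ / (2 * N)) * (d / (1 + d)) := by
      rw [hcd]; field_simp
    rw [h1, hδ]
    have h2 : (d : ℝ) / (1 + d) ≤ 1 := by
      rw [div_le_one (by positivity)]; linarith
    calc σ / (2 * N) * (d / (1 + d)) ≤ σ / (2 * N) * 1 := mul_le_mul_of_nonneg_left h2 (by positivity)
      _ = _ := mul_one _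
  have hpt : ∀ y : Space m, ‖boxSum N ω f a y‖ₑ ^ q ≤
      ‖mult δ ω (fun i => scl c (a i)) (scl c y)‖ₑ ^ q := by
    intro y
    apply ENNReal.rpow_le_rpow _ hq.le
    have h1 : 0 ≤ boxSum N ω f a y :=
      Finset.sum_nonneg fun i _ => indicator_nonneg (fun _ _ => zero_le_one) _
    have h2 : boxSum N ω f a y ≤ mult δ ω (fun i => scl c (a i)) (scl c y) := by
      unfold boxSum mult
      refine Finset.sum_le_sum fun i _ => ?_
      by_cases hy : y ∈ box N (nor (ω i)) (f i) (a i)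
      · rw [indicator_of_mem hy, indicator_of_mem (scl_box hN hc0 hc1 hc2 (hf i) hy)]
      · rw [indicator_of_notMem hy]
        exact indicator_nonneg (fun _ _ => zero_le_one) _
    rw [Real.enorm_of_nonneg h1, Real.enorm_of_nonneg (h1.trans h2)]
    exact ENNReal.ofReal_le_ofReal h2
  set g : Space m → ℝ≥0∞ := fun y => ‖mult δ ω (fun i => scl c (a i)) y‖ₑ ^ q with hg
  have hgm : Measurable g := by
    have : Measurable (mult δ ω (fun i => scl c (a i))) := by
      unfold mult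
      apply Finset.measurable_sum
      intro i _
      exact measurable_const.indicator (Pool.Agent.X160.Pf.tube_closed _ _ _).measurableSet
    exact this.enorm.pow_const _
  have hmp := WithLp.volume_preserving_toLp (Base m) ℝ
  have hsplit : ∀ G : Space m → ℝ≥0∞, Measurable G → ∫⁻ y : Space m, G y =
      ∫⁻ t : ℝ, ∫⁻ x : Base m, G (WithLp.toLp 2 (x, t)) := by
    intro G hG
    rw [← hmp.lintegral_comp hG]
    have hg2 : Measurable (fun p : Base m × ℝ => G (WithLp.toLp 2 p)) := hG.comp hmp.measurable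
    rw [Measure.volume_eq_prod, lintegral_prod_symm _ hg2.aemeasurable]
  have hsclc : Continuous (scl (m := m) c) := by
    unfold scl
    fun_prop
  have hc2' : -(c / 2) ≠ 0 := by
    have : 0 < c / 2 := by positivity
    linarith
  calc ∫⁻ y : Space m, ‖boxSum N ω f a y‖ₑ ^ q
      ≤ ∫⁻ y : Space m, g (scl c y) := lintegral_mono hpt
    _ = ∫⁻ t : ℝ, ∫⁻ x : Base m, g (WithLp.toLp 2 (-(c / 2) • x, c * t)) := by
        rw [hsplit (fun y => g (scl c y)) (hgm.comp hsclc.measurable)]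
        rfl
    _ = ∫⁻ t : ℝ, ENNReal.ofReal |((-(c / 2)) ^ (m + 1))⁻¹| *
          ∫⁻ x : Base m, g (WithLp.toLp 2 (x, c • t)) := by
        refine lintegral_congr fun t => ?_
        rw [Pool.Agent.H810R3.Tub.lint_smul volume hc2'
          (fun x : Base m => g (WithLp.toLp 2 (x, c * t))), finrank_base, smul_eq_mul]
    _ = ENNReal.ofReal |((-(c / 2)) ^ (m + 1))⁻¹| * (ENNReal.ofReal |(c ^ 1)⁻¹| *
          ∫⁻ t : ℝ, ∫⁻ x : Base m, g (WithLp.toLp 2 (x, t))) := by
        rw [lintegral_const_mul' _ _ ENNReal.ofReal_ne_top,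
          Pool.Agent.H810R3.Tub.lint_smul volume hc0.ne'
          (fun t : ℝ => ∫⁻ x : Base m, g (WithLp.toLp 2 (x, t))), Module.finrank_self]
    _ = _ := by
        rw [← hsplit g hgm, ← mul_assoc, ← ENNReal.ofReal_mul (abs_nonneg _)]
        congr 2
        have e1 : |((-(c / 2)) ^ (m + 1))⁻¹| = 2 ^ (m + 1) * ((1 + d) / σ) ^ (m + 1) * N ^ (2 * (m + 1)) := by
          rw [abs_inv, abs_pow, abs_neg, abs_of_pos (by positivity : 0 < c / 2), hcd, ← inv_pow]
          have : (σ / ((1 + d) * N ^ 2) / 2)⁻¹ = 2 * ((1 + d) / σ) * N ^ 2 := by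
            field_simp
          rw [this, mul_pow, mul_pow, ← pow_mul]
        have e2 : |(c ^ 1)⁻¹| = ((1 + d) / σ) * N ^ 2 := by
          rw [pow_one, abs_inv, abs_of_pos hc0, hcd]
          field_simp
        rw [e1, e2, pow_succ ((1 + d) / σ) (m + 1), show 2 * (m + 2) = 2 * (m + 1) + 2 by ring,
          pow_add N (2 * (m + 1)) 2]
        ring

end Pool.Agent.X160.Tr
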