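import Pool.Agent.X160.Tr.Boxes
import Pool.Agent.H810R3.Tub.Lip
import Pool.Agent.X160.Ps.Main
set_option autoImplicit false

/-!
# Boxes carried by families of planes
-/

open MeasureTheory Set Filter Topology ENNReal NNReal Metric

namespace Pool.Agent.X160.Tr

open Pool.Agent.X160.Pf Pool.Agent.X160.Ps

variable {m : ℕ}

/-- The integral bound of `PlaneFamilies` for separated slopes. -/
theorem int_planes (hm : 1 ≤ m) {r q : ℝ} (hr : 1 < ((m : ℝ) + 1) * r) (hr1 : r ≤ 1)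
    (hrq : r + 1 ≤ q) {Λ : ℝ≥0} {M : ℕ} {A K θ δ : ℝ} (hK : 0 ≤ K) (hθ : 0 < θ) (hδ : 0 < δ)
    (hδ1 : δ < 1) (hA0 : 0 ≤ A) {S : Set (Vec m)}
    (hS : MeasurableSet S) {α β γ : Vec m → Vec m}
    (hα : LipschitzOnWith Λ α S) (hβ : LipschitzOnWith Λ β S) (hγ : LipschitzOnWith Λ γ S)
    (hA : ∀ s ∈ S, ‖γ s‖ ≤ A) (hO : OverlapLE M univ S α β γ) {ι : Type} [Fintype ι]
    (v : ι → Base m) (x : ι → Space m) (hv : ∀ i, ‖v i‖ ≤ 1)
    (hsep : ∀ i j, i ≠ j → δ ≤ ‖v i - v j‖)
    (hc : ∀ i, Carried θ δ K S α β γ (v i) (x i)) :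
    ∫⁻ y : Space m, ‖mult δ v x y‖ₑ ^ q ≤
      ENNReal.ofReal (Cf m r * (1 + M) ^ r * θ ^ (-(1 / ((m : ℝ) + 1))) *
        (1 + K + A) ^ (4 * m) * δ ^ ((m : ℝ) + 1) *
        (Fintype.card ι : ℝ) ^ (q - 1 / ((m : ℝ) + 1))) := by
  set V0 : ℝ := (volume (ball (0 : Base m) 1)).toReal with hV0
  have hV00 : 0 < V0 := ENNReal.toReal_pos (measure_ball_pos volume _ one_pos).ne'
    (measure_ball_lt_top).ne
  have hV0e : volume (ball (0 : Base m) 1) = ENNReal.ofReal V0 :=
    (ENNReal.ofReal_toReal (measure_ball_lt_top).ne).symm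
  have hLe : volume (ball (0 : Base m) (δ / 2)) =
      ENNReal.ofReal (2 * ((δ / 2) ^ (m + 1) * V0 / 2)) := by
    rw [Measure.addHaar_ball _ _ (by positivity), finrank_base, hV0e,
      ← ENNReal.ofReal_mul (by positivity)]
    congr 1
    ring
  obtain ⟨S₀, α', β', γ', a, b, c, φ, hPF, hTD⟩ := exists_data hK hθ hδ hS hα hβ hγ hA hO v x hsep
    hc (by positivity) hLe
  have key := final_data hm hr hr1 hrq hK hθ hδ hδ1 hA0 MeasurableSet.univ v x hv hPF hTD
  have hset : {y : Space m | (y.snd, y.fst.snd) ∈ (univ : Set (ℝ × ℝ))} = univ := by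
    ext y; simp
  rwa [hset, Measure.restrict_univ] at key

/-- The box with normal at `ω` and centre `a` is carried by the family, blown up by `N²`, up to
`K N`, for a proportion at least `θ` of the points at distance `< r` of `ω`. -/
def CarriedBox (θ r K N : ℝ) (S : Set (Vec m)) (α β γ : Vec m → Vec m) (ω : Base m)
    (a : Space m) : Prop :=
  ENNReal.ofReal θ * volume (ball ω r) ≤ volume {w : Base m | ‖w - ω‖ < r ∧
    ∃ s ∈ S, -(2 : ℝ) • w.fst = β s - (2 * w.snd) • γ s ∧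
      ‖N ^ 2 • α s + a.snd • β s + a.fst.snd • γ s - a.fst.fst‖ ≤ K * N}

/-- the constant of the scaled family -/
noncomputable def kap (m : ℕ) (σ : ℝ) : ℝ := σ / (2 * (1 + ((m + 1 : ℕ) : ℝ)))

theorem kap_pos {σ : ℝ} (hσ : 0 < σ) : 0 < kap m σ := by unfold kap; positivity

theorem kap_le {σ : ℝ} (hσ1 : σ ≤ 1) : kap m σ ≤ 1 := by
  unfold kap
  rw [div_le_one (by positivity)]
  push_cast
  have : (0 : ℝ) ≤ m := Nat.cast_nonneg m
  linarith

/-- The boxes become tubes carried by the scaled family. -/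
theorem carried_scl {θ K N σ : ℝ} (hσ : 0 < σ) (hN : 1 ≤ N) (hK : 0 ≤ K)
    {S : Set (Vec m)} {α β γ : Vec m → Vec m} {ω : Base m} {a : Space m}
    (h : CarriedBox θ (σ / (4 * N)) K N S α β γ ω a) :
    Carried θ (σ / (2 * N)) K S (fun s => -(kap m σ) • α s) (fun s => -(1 / 2 : ℝ) • β s) γ ω
      (scl (cs m σ N) a) := by
  have hN0 : 0 < N := by linarith
  have hc0 : 0 < cs m σ N := by unfold cs; positivity
  have hcN : cs m σ N / 2 * N ^ 2 = kap m σ := by
    unfold cs kap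
    field_simp
  unfold CarriedBox at h
  unfold Carried
  have e1 : σ / (2 * N) / 2 = σ / (4 * N) := by
    field_simp
    norm_num
  rw [e1]
  refine h.trans (measure_mono ?_)
  rintro w ⟨hw1, s, hs, hw2, hw3⟩
  refine ⟨hw1, s, hs, ?_, ?_⟩
  · have : w.fst = -(1 / 2 : ℝ) • (-(2 : ℝ) • w.fst) := by
      rw [smul_smul]; norm_num
    rw [this, hw2, smul_sub, smul_smul]
    have e2 : -(1 / 2 : ℝ) * (2 * w.snd) = -w.snd := by ring
    rw [e2, neg_smul w.snd, sub_neg_eq_add]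
  · have e2 : pt (fun s => -(kap m σ) • α s) (fun s => -(1 / 2 : ℝ) • β s) γ
        ((scl (cs m σ N) a).snd, (scl (cs m σ N) a).fst.snd) s - (scl (cs m σ N) a).fst.fst =
        -(cs m σ N / 2) • (N ^ 2 • α s + a.snd • β s + a.fst.snd • γ s - a.fst.fst) := by
      show -(kap m σ) • α s + (cs m σ N * a.snd) • (-(1 / 2 : ℝ) • β s) +
        (-(cs m σ N / 2) * a.fst.snd) • γ s - -(cs m σ N / 2) • a.fst.fst = _
      rw [← hcN]
      module
    rw [e2, norm_smul, norm_neg, Real.norm_of_nonneg (by positivity)]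
    calc cs m σ N / 2 * ‖N ^ 2 • α s + a.snd • β s + a.fst.snd • γ s - a.fst.fst‖
        ≤ cs m σ N / 2 * (K * N) := by gcongr
      _ = K * ((cs m σ N / 2 * N ^ 2) / N) := by field_simp
      _ ≤ K * (σ / (2 * N)) := by
          apply mul_le_mul_of_nonneg_left _ hK
          rw [hcN]
          unfold kap
          rw [div_div, div_le_div_iff_of_pos_left hσ (by positivity) (by positivity)]
          push_cast
          have : (0 : ℝ) ≤ m := Nat.cast_nonneg m
          nlinarith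

/-- Almost every point, after a diagonal change of variables. -/
theorem ae_diag {a b : ℝ} (ha : a ≠ 0) (hb : b ≠ 0) {P : ℝ × ℝ → Prop} (h : ∀ᵐ p, P p) :
    ∀ᵐ p : ℝ × ℝ, P (a * p.1, b * p.2) := by
  have hH : (volume : Measure (ℝ × ℝ)).IsAddHaarMeasure := by
    rw [Measure.volume_eq_prod]
    infer_instance
  set f : (ℝ × ℝ) →ₗ[ℝ] (ℝ × ℝ) :=
    LinearMap.prodMap (a • LinearMap.id) (b • LinearMap.id) with hf
  have hdet : LinearMap.det f ≠ 0 := by
    rw [hf, LinearMap.det_prodMap, LinearMap.det_smul, LinearMap.det_smul]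
    simp [ha, hb]
  have h3 := Measure.LinearMap.quasiMeasurePreserving (volume : Measure (ℝ × ℝ)) f hdet
  exact h3.ae h

/-- The overlap of the scaled family. -/
theorem overlap_scl {σ : ℝ} (hσ : 0 < σ) {M : ℕ} {S : Set (Vec m)} {α β γ : Vec m → Vec m}
    (h : OverlapLE M univ S α β γ) :
    OverlapLE M univ S (fun s => -(kap m σ) • α s) (fun s => -(1 / 2 : ℝ) • β s) γ := by
  have hk := kap_pos (m := m) hσ
  unfold OverlapLE at h ⊢
  have h1 := ae_diag (a := 1 / (2 * kap m σ)) (b := -(1 / kap m σ)) (by positivity)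
    (neg_ne_zero.2 (by positivity)) h
  filter_upwards [h1] with p hp _
  have h2 := Pool.Agent.H810R3.Tub.ae_smul (volume : Measure (Vec m))
    (r := -(1 / kap m σ)) (neg_ne_zero.2 (by positivity)) (hp (mem_univ _))
  filter_upwards [h2] with z hz
  refine le_trans (Set.encard_le_encard ?_) hz
  rintro s ⟨hs, hsz⟩
  refine ⟨hs, ?_⟩
  rw [← hsz]
  unfold pt
  have hk' : kap m σ ≠ 0 := hk.ne'
  simp only [smul_add, smul_smul, mul_neg, neg_mul, neg_neg]
  have a1 : 1 / kap m σ * kap m σ = 1 := by field_simp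
  rw [a1, one_smul]
  congr 2
  congr 1
  field_simp

end Pool.Agent.X160.Tr
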