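import Pool.Agent.X160.Tr.Fin
set_option autoImplicit false

/-!
# Boxes carried by smooth families of planes
-/

open MeasureTheory Set Filter Topology ENNReal NNReal Metric

namespace Pool.Agent.X160.Tr

open Pool.Agent.X160.Pf Pool.Agent.X160.Ps

variable {m : ℕ}

theorem Cb_smul {k : ℕ} {A t : ℝ} {b : Vec m → Vec m} (h : Cb k A b) (ht : |t| ≤ 1) :
    Cb k A (fun s => t • b s) := by
  have h0 : ContDiff ℝ (k + 1 : ℕ) (t • b) := h.1.const_smul t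
  refine ⟨h0, ?_⟩
  intro j hj s hs
  have h1 : iteratedFDeriv ℝ j (fun s => t • b s) s = t • iteratedFDeriv ℝ j b s := by
    have h2 : ContDiffAt ℝ j b s := (h.1.of_le (by exact_mod_cast hj)).contDiffAt
    exact iteratedFDeriv_const_smul_apply' h2
  rw [h1, norm_smul, Real.norm_eq_abs]
  calc |t| * ‖iteratedFDeriv ℝ j b s‖ ≤ 1 * A := by
        apply mul_le_mul ht (h.2 j hj s hs) (norm_nonneg _) zero_le_one
    _ = A := one_mul A

/-- **The inequality in integral form.** -/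
theorem smooth_int (hm : 1 ≤ m) {r q : ℝ} (hr : 1 < ((m : ℝ) + 1) * r) (hr1 : r ≤ 1)
    (hrq : r + 1 ≤ q) {k : ℕ} (hk : 1 ≤ k) {D : ℝ} (hD0 : 0 < D)
    (hD : ∀ (R : ℝ) (X Y : Vec m →L[ℝ] Vec m), ‖X‖ ≤ R → ‖Y‖ ≤ R →
      |X.det - Y.det| ≤ D * R ^ (m - 1) * ‖X - Y‖)
    {A K Λ θ δ : ℝ} (hA : 0 ≤ A) (hK : 0 ≤ K) (hΛ : 0 ≤ Λ)
    (hθ : 0 < θ) (hδ : 0 < δ) (hδ1 : δ < 1) {S : Set (Vec m)}
    (hS : MeasurableSet S) (hS1 : S ⊆ closedBall 0 1) {α β γ : Vec m → Vec m} (hα : Cb k A α)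
    (hβ : Cb k A β) (hγ : Cb k A γ) {ι : Type} [Fintype ι] (v : ι → Base m) (x : ι → Space m)
    (hv : ∀ i, ‖v i‖ ≤ 1) (hx : ∀ i, |(x i).snd| ≤ Λ ∧ |(x i).fst.snd| ≤ Λ)
    (hsep : ∀ i j, i ≠ j → δ ≤ ‖v i - v j‖)
    (hc : ∀ i, Carried θ δ K S α β γ (v i) (x i)) :
    ∫⁻ y : Space m, ‖mult δ v x y‖ₑ ^ q ≤
      ENNReal.ofReal (CS m k r D * (δ ^ (-(m * (m * r) / k)) *
        θ ^ (-(1 / ((m : ℝ) + 1) + m / k)) * (1 + K + A + Λ) ^ (4 * m + m ^ 2)) *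
        (δ ^ ((m : ℝ) + 1) * (Fintype.card ι : ℝ) ^ (q - 1 / ((m : ℝ) + 1)))) := by
  classical
  have hm0 : (0 : ℝ) < m := by exact_mod_cast hm
  have hm1 : (1 : ℝ) ≤ m := by exact_mod_cast hm
  have hk0 : (0 : ℝ) < k := by exact_mod_cast hk
  have hk1 : (1 : ℝ) ≤ k := by exact_mod_cast hk
  have hr0 : 0 < r := by
    by_contra h
    push Not at h
    nlinarith
  have hq0 : 0 < q := by linarith
  rcases isEmpty_or_nonempty ι with hι | hι
  · have h0 : ∀ y, ‖mult δ v x y‖ₑ ^ q = 0 := by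
      intro y
      unfold mult
      simp [hq0]
    simp [h0]
  have hθ1 : θ ≤ 1 := theta_le_one hδ (hc hι.some)
  set V0 : ℝ := (volume (ball (0 : Base m) 1)).toReal with hV0
  have hV00 : 0 < V0 := ENNReal.toReal_pos (measure_ball_pos volume _ one_pos).ne'
    (measure_ball_lt_top).ne
  have hV0e : volume (ball (0 : Base m) 1) = ENNReal.ofReal V0 :=
    (ENNReal.ofReal_toReal (measure_ball_lt_top).ne).symm
  set W0 : ℝ := (volume (closedBall (0 : Vec m) 1)).toReal with hW0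
  have hW00 : 0 < W0 := ENNReal.toReal_pos (measure_closedBall_pos volume _ one_pos).ne'
    (measure_closedBall_lt_top).ne
  have hW0e : volume (closedBall (0 : Vec m) 1) = ENNReal.ofReal W0 :=
    (ENNReal.ofReal_toReal (measure_closedBall_lt_top).ne).symm
  set L : ℝ := (δ / 2) ^ (m + 1) * V0 / 2 with hL
  have hL0 : 0 < L := by positivity
  have hLe : volume (ball (0 : Base m) (δ / 2)) = ENNReal.ofReal (2 * L) := by
    rw [Measure.addHaar_ball _ _ (by positivity), finrank_base, hV0e,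
      ← ENNReal.ofReal_mul (by positivity)]
    congr 1
    rw [hL]
    ring
  set c : ℝ := cc m D with hcdef
  have hc0 : 0 < c := by
    rw [hcdef]
    unfold cc
    apply lt_min <;> positivity
  have hca : c ≤ 1 / (24 * ((m : ℝ) + 1)) := min_le_left _ _
  have hcb : c ≤ V0 / (2 ^ (m + 3) * (3 * 6 ^ (m - 1) * D * W0)) := min_le_right _ _
  have hc1 : c ≤ 1 := by
    refine hca.trans ?_
    rw [div_le_one (by positivity)]
    linarith
  obtain ⟨u, hu0, hu1, huk, hAu, hus⟩ := exists_scale hm hk hc0 hc1 hA hθ hθ1 hδ hδ1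
  set h : ℝ := u / m with hh
  have hh0 : 0 < h := by positivity
  have hmh : m * h = u := by rw [hh]; field_simp
  have hh1 : h ≤ 1 := by
    rw [hh, div_le_one hm0]; linarith
  have hcθδ : c * θ * δ ≤ δ := by
    have : c * θ * δ ≤ 1 * 1 * δ := by gcongr
    linarith
  have hsep' := hsep
  have hdet : D * (6 * A) ^ (m - 1) * (3 * (A * (m * h) ^ k)) * (W0 * δ) ≤ θ * L / 2 := by
    rw [hmh, huk]
    have e1 : (6 * A) ^ (m - 1) * A = 6 ^ (m - 1) * A ^ m := by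
      rw [mul_pow, mul_assoc, ← pow_succ]
      congr 2
      omega
    have e2 : A ^ m / (1 + A) ^ m ≤ 1 := by
      rw [div_le_one (by positivity)]
      exact pow_le_pow_left₀ hA (by linarith) _
    calc D * (6 * A) ^ (m - 1) * (3 * (A * (c * θ * δ ^ m / (1 + A) ^ m))) * (W0 * δ)
        = D * ((6 * A) ^ (m - 1) * A) * (3 * (c * θ * δ ^ m / (1 + A) ^ m)) * (W0 * δ) := by ring
      _ = (3 * 6 ^ (m - 1) * D * W0) * c * (θ * δ ^ (m + 1)) * (A ^ m / (1 + A) ^ m) := by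
          rw [e1, pow_succ δ m]
          field_simp
      _ ≤ (3 * 6 ^ (m - 1) * D * W0) * (V0 / (2 ^ (m + 3) * (3 * 6 ^ (m - 1) * D * W0))) *
          (θ * δ ^ (m + 1)) * 1 := by gcongr
      _ = θ * L / 2 := by
          rw [hL, div_pow, pow_succ (2 : ℝ) (m + 2), pow_succ (2 : ℝ) (m + 1)]
          field_simp
  have hx8 : θ * δ / (8 * ((m : ℝ) + 1)) ≤ δ / 2 := by
    rw [div_le_div_iff₀ (by positivity) (by norm_num)]
    have : θ * δ ≤ 1 * δ := by gcongr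
    nlinarith
  obtain ⟨φ, hPF, hTD⟩ := data hm hk (K := K) (Λ := Λ) hA hK hΛ hθ hδ hδ1 hS hS1 hα hβ hγ v x hv hx
    hsep' hc hL0 hLe hW0e hW00.le hD hD0.le hh0 (by rw [hmh]; exact hu1)
    (by rw [hmh]; exact hAu.trans hcθδ)
    (ε₀ := θ * δ / (8 * ((m : ℝ) + 1)))
    (by
      rw [hmh]
      have h1 : 3 * (A * u ^ (k + 1)) ≤ 3 * (c * θ * δ) := by gcongr
      refine h1.trans ?_
      have h2 : c * (24 * ((m : ℝ) + 1)) ≤ 1 := by
        rwa [le_div_iff₀ (by positivity)] at hca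
      rw [le_div_iff₀ (by positivity)]
      have h3 : 0 < θ * δ := by positivity
      nlinarith)
    hx8 (shell hδ hθ hθ1 hV00 hV0e hL) hdet
  rw [hL] at hTD
  have key := final_data hm hr hr1 hrq (by positivity : 0 ≤ K + 1 + 2 * Λ)
    (by positivity : 0 < θ / 2) hδ hδ1 (by positivity : 0 ≤ A + 1) MeasurableSet.univ v x hv
    hPF hTD
  have hset : {y : Space m | (y.snd, y.fst.snd) ∈ (univ : Set (ℝ × ℝ))} = univ := by
    ext y; simp
  rw [hset, Measure.restrict_univ] at key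
  refine key.trans (ENNReal.ofReal_le_ofReal ?_)
  set Mk : ℕ := ((k * m + 1) ^ m) ^ m with hMk
  have hMk1 : (1 : ℝ) ≤ Mk := by
    rw [hMk]
    exact_mod_cast Nat.one_le_pow _ _ (Nat.one_le_pow _ _ (Nat.succ_pos _))
  set N : ℝ := (Fintype.card ι : ℝ) with hN
  have hN0 : 0 ≤ N := Nat.cast_nonneg _
  clear_value Mk N
  have hM : (1 : ℝ) + (((cells m h).card * Mk : ℕ) : ℝ) ≤ 2 * Mk * (4 * m) ^ m * (u⁻¹) ^ m := by
    have h1 := card_cells (m := m) hh0 hh1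
    have h2 : (4 / h) ^ m = (4 * m) ^ m * (u⁻¹) ^ m := by
      rw [← mul_pow, hh]
      congr 1
      field_simp
    rw [h2] at h1
    have h3 : 1 ≤ u⁻¹ := (one_le_inv₀ hu0).2 hu1
    have h4 : (1 : ℝ) ≤ (4 * m) ^ m * (u⁻¹) ^ m := by
      have a1 : (1 : ℝ) ≤ (4 * m) ^ m := one_le_pow₀ (by linarith)
      have a2 : (1 : ℝ) ≤ (u⁻¹) ^ m := one_le_pow₀ h3
      nlinarith
    push_cast
    calc (1 : ℝ) + (cells m h).card * Mk ≤ Mk * ((4 * m) ^ m * (u⁻¹) ^ m) +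
          ((4 * m) ^ m * (u⁻¹) ^ m) * Mk := by
          have a3 : (1 : ℝ) * 1 ≤ Mk * ((4 * m) ^ m * (u⁻¹) ^ m) := by gcongr
          have a4 : ((cells m h).card : ℝ) * Mk ≤ ((4 * m) ^ m * (u⁻¹) ^ m) * Mk := by gcongr
          linarith
      _ = _ := by ring
  have hX1 : 0 ≤ (1 : ℝ) + (((cells m h).card * Mk : ℕ) : ℝ) := by
    have := Nat.cast_nonneg (α := ℝ) ((cells m h).card * Mk)
    linarith
  have hMr : ((1 : ℝ) + (((cells m h).card * Mk : ℕ) : ℝ)) ^ r ≤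
      (2 * Mk * (4 * m) ^ m) ^ r * (c ^ (-(m * r / k)) * θ ^ (-(m / k : ℝ)) *
        δ ^ (-(m * (m * r) / k)) * (1 + K + A + Λ) ^ (m ^ 2)) := by
    have h1 : ((1 : ℝ) + (((cells m h).card * Mk : ℕ) : ℝ)) ^ r ≤
        (2 * Mk * (4 * m) ^ m * (u⁻¹) ^ m) ^ r :=
      Real.rpow_le_rpow hX1 hM hr0.le
    refine h1.trans ?_
    rw [Real.mul_rpow (by positivity) (by positivity)]
    have h2 : ((u⁻¹) ^ m) ^ r = u ^ (-(m * r)) := by
      rw [inv_pow, ← Real.rpow_natCast, ← Real.rpow_neg hu0.le, ← Real.rpow_mul hu0.le]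
      congr 1
      ring
    rw [h2, hus (m * r) (by positivity)]
    have h3 : θ ^ (-(m * r / k)) ≤ θ ^ (-(m / k : ℝ)) := by
      apply Real.rpow_le_rpow_of_exponent_ge hθ hθ1
      rw [neg_le_neg_iff, div_le_div_iff_of_pos_right hk0]
      nlinarith
    have h4 : (1 + A) ^ (m * (m * r) / k) ≤ (1 + K + A + Λ) ^ (m ^ 2) := by
      calc (1 + A) ^ (m * (m * r) / k) ≤ (1 + A) ^ (((m ^ 2 : ℕ)) : ℝ) := by
            apply Real.rpow_le_rpow_of_exponent_le (by linarith)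
            push_cast
            rw [div_le_iff₀ hk0]
            have a1 : (m : ℝ) * (m * r) ≤ m * (m * 1) := by gcongr
            nlinarith [sq_nonneg (m : ℝ)]
        _ = (1 + A) ^ (m ^ 2) := Real.rpow_natCast _ _
        _ ≤ (1 + K + A + Λ) ^ (m ^ 2) := by
            apply pow_le_pow_left₀ (by linarith)
            linarith
    gcongr
  have hθ2 : (θ / 2) ^ (-(1 / ((m : ℝ) + 1))) ≤ 2 * θ ^ (-(1 / ((m : ℝ) + 1))) := by
    rw [Real.div_rpow hθ.le (by norm_num)]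
    have h1 : (2 : ℝ) ^ (-(1 / ((m : ℝ) + 1))) = (2 ^ (1 / ((m : ℝ) + 1)))⁻¹ := by
      rw [Real.rpow_neg (by norm_num)]
    rw [h1, div_inv_eq_mul, mul_comm]
    have h2 : (2 : ℝ) ^ (1 / ((m : ℝ) + 1)) ≤ 2 ^ (1 : ℝ) := by
      apply Real.rpow_le_rpow_of_exponent_le (by norm_num)
      rw [div_le_one (by positivity)]
      linarith
    rw [Real.rpow_one] at h2
    gcongr
  have h3K : (1 + (K + 1 + 2 * Λ) + (A + 1)) ^ (4 * m) ≤
      3 ^ (4 * m) * (1 + K + A + Λ) ^ (4 * m) := by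
    rw [← mul_pow]
    apply pow_le_pow_left₀ (by positivity)
    linarith
  have hθs : θ ^ (-(1 / ((m : ℝ) + 1) + m / k)) =
      θ ^ (-(1 / ((m : ℝ) + 1))) * θ ^ (-(m / k : ℝ)) := by
    rw [← Real.rpow_add hθ]
    congr 1
    ring
  have hCf : Cf m r ≤ max (Cf m r) 1 := le_max_left _ _
  have hCf0 : 0 < max (Cf m r) 1 := lt_of_lt_of_le one_pos (le_max_right _ _)
  have hX2 : 0 ≤ ((1 : ℝ) + (((cells m h).card * Mk : ℕ) : ℝ)) ^ r := Real.rpow_nonneg hX1 r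
  generalize ((1 : ℝ) + (((cells m h).card * Mk : ℕ) : ℝ)) ^ r = X at hMr hX2 ⊢
  calc Cf m r * X *
        (θ / 2) ^ (-(1 / ((m : ℝ) + 1))) * (1 + (K + 1 + 2 * Λ) + (A + 1)) ^ (4 * m) *
        δ ^ ((m : ℝ) + 1) * N ^ (q - 1 / ((m : ℝ) + 1))
      ≤ max (Cf m r) 1 * ((2 * Mk * (4 * m) ^ m) ^ r * (c ^ (-(m * r / k)) * θ ^ (-(m / k : ℝ)) *
        δ ^ (-(m * (m * r) / k)) * (1 + K + A + Λ) ^ (m ^ 2))) *
        (2 * θ ^ (-(1 / ((m : ℝ) + 1)))) * (3 ^ (4 * m) * (1 + K + A + Λ) ^ (4 * m)) *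
        δ ^ ((m : ℝ) + 1) * N ^ (q - 1 / ((m : ℝ) + 1)) := by gcongr
    _ = _ := by
        unfold CS
        rw [hθs, pow_add, ← hMk, ← hcdef]
        ring

/-- **Boxes carried by a smooth family of planes.** -/
theorem smooth_boxes (hm : 1 ≤ m) {k : ℕ} (hk : 1 ≤ k) {ε σ κ : ℝ} (hε : 0 < ε) (hσ : 0 < σ)
    (hσ1 : σ ≤ 1) (hκ : 0 < κ) :
    ∃ C : ℝ, 0 < C ∧ ∀ (A K Λ θ : ℝ) (S : Set (Vec m)) (α β γ : Vec m → Vec m), 0 ≤ A →
      0 ≤ K → 0 ≤ Λ → 0 < θ → MeasurableSet S → S ⊆ closedBall 0 1 → Cb k A α → Cb k A β →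
      Cb k A γ → ∀ N : ℝ, 1 ≤ N → ∀ (ι : Type) [Fintype ι] (ω : ι → Base m)
        (f : ι → Fin (m + 1) → Space m) (a : ι → Space m), Caps σ κ N ω f →
      (∀ i, |(a i).snd| ≤ Λ * N ^ 2 ∧ |(a i).fst.snd| ≤ Λ * N ^ 2) →
      (∀ i, CarriedBox θ (σ / (4 * N)) K N S α β γ (ω i) (a i)) →
      ∀ p : ℝ≥0∞, 1 ≤ p → eLpNorm (boxSum N ω f a) p volume ≤
        ENNReal.ofReal (C * (θ ^ (-(1 / ((m : ℝ) + 1) + m / k)) *
          (1 + K + A + Λ) ^ (4 * m + m ^ 2) * N ^ ((m : ℝ) ^ 2 / k)) * N ^ ε) *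
          eLpNorm (boxSum N ω f 0) p volume := by
  have hm0 : (0 : ℝ) < m := by exact_mod_cast hm
  have hk0 : (0 : ℝ) < k := by exact_mod_cast hk
  obtain ⟨hr, hr1, hrq, hr0⟩ := r_facts hm hε
  obtain ⟨D, hD0, hD⟩ := det_close hm
  set r : ℝ := min (qe m ε - 1) 1 with hrdef
  set E₀ : ℝ := max (CS m k r D) 1 * (2 / σ) ^ ((m : ℝ) ^ 2 / k) with hE₀def
  have hmax : 0 < max (CS m k r D) 1 := lt_of_lt_of_le one_pos (le_max_right _ _)
  have hE₀ : 0 < E₀ := by positivity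
  obtain ⟨C, hC0, hC⟩ := boxes hm hε hσ hσ1 hκ hE₀
  refine ⟨C, hC0, ?_⟩
  intro A K Λ θ S α β γ hA hK hΛ hθ hS hS1 hα hβ hγ N hN ι _ ω f a hcaps ha hc p hp
  have hN0 : 0 < N := by linarith
  have hδ0 : 0 < σ / (2 * N) := by positivity
  have hδ1 : σ / (2 * N) < 1 := by
    rw [div_lt_one (by positivity)]
    linarith
  have hne : Nonempty ι := by
    rw [← Fintype.card_pos_iff]
    have h1 : (0 : ℝ) < (Fintype.card ι : ℝ) :=
      lt_of_lt_of_le (by positivity) hcaps.2.2.1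
    exact_mod_cast h1
  have hc' : ∀ i, Carried θ (σ / (2 * N)) K S (fun s => -(kap m σ) • α s)
      (fun s => -(1 / 2 : ℝ) • β s) γ (ω i) (scl (cs m σ N) (a i)) :=
    fun i => carried_scl hσ hN hK (hc i)
  have hθ1 : θ ≤ 1 := theta_le_one hδ0 (hc' hne.some)
  have hk1 := kap_le (m := m) hσ1
  have hk0' := kap_pos (m := m) hσ
  have hcN : cs m σ N * N ^ 2 ≤ 1 := by
    have h1 : cs m σ N * N ^ 2 = σ / (1 + ((m + 1 : ℕ) : ℝ)) := by
      unfold cs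
      field_simp
    rw [h1, div_le_one (by positivity)]
    push_cast
    linarith
  have hcs0 : 0 < cs m σ N := by unfold cs; positivity
  have hx : ∀ i, |(scl (cs m σ N) (a i)).snd| ≤ Λ ∧ |(scl (cs m σ N) (a i)).fst.snd| ≤ Λ := by
    intro i
    obtain ⟨h1, h2⟩ := ha i
    have hb : cs m σ N * (Λ * N ^ 2) ≤ Λ := by
      calc cs m σ N * (Λ * N ^ 2) = Λ * (cs m σ N * N ^ 2) := by ring
        _ ≤ Λ * 1 := by gcongr
        _ = Λ := mul_one _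
    constructor
    · show |cs m σ N * (a i).snd| ≤ Λ
      rw [abs_mul, abs_of_pos hcs0]
      calc cs m σ N * |(a i).snd| ≤ cs m σ N * (Λ * N ^ 2) := by gcongr
        _ ≤ Λ := hb
    · show |-(cs m σ N / 2) * (a i).fst.snd| ≤ Λ
      rw [abs_mul, abs_neg, abs_of_pos (by positivity : 0 < cs m σ N / 2)]
      calc cs m σ N / 2 * |(a i).fst.snd| ≤ cs m σ N * (Λ * N ^ 2) := by
            apply mul_le_mul _ h2 (abs_nonneg _) hcs0.le
            linarith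
        _ ≤ Λ := hb
  have hLe := smooth_int hm hr hr1 hrq hk hD0 hD hA hK hΛ hθ hδ0 hδ1 hS hS1
    (Cb_smul (t := -(kap m σ)) hα (by rw [abs_neg, abs_of_pos hk0']; exact hk1))
    (Cb_smul (t := -(1 / 2 : ℝ)) hβ (by norm_num)) hγ ω
    (fun i => scl (cs m σ N) (a i)) hcaps.1 hx
    (fun i j hij => by
      refine le_trans ?_ (hcaps.2.1 i j hij)
      apply div_le_div_of_nonneg_left hσ.le hN0
      linarith) hc'
  have hθi : 1 ≤ θ ^ (-(1 / ((m : ℝ) + 1) + m / k)) := by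
    apply Real.one_le_rpow_of_pos_of_le_one_of_nonpos hθ hθ1
    rw [neg_nonpos]
    positivity
  have hKA : (1 : ℝ) ≤ (1 + K + A + Λ) ^ (4 * m + m ^ 2) := one_le_pow₀ (by linarith)
  have hNm : 1 ≤ N ^ ((m : ℝ) ^ 2 / k) := Real.one_le_rpow hN (by positivity)
  have hX1 : 1 ≤ θ ^ (-(1 / ((m : ℝ) + 1) + m / k)) *
      (1 + K + A + Λ) ^ (4 * m + m ^ 2) * N ^ ((m : ℝ) ^ 2 / k) := by
    calc (1 : ℝ) = 1 * 1 * 1 := by ring
      _ ≤ _ := by gcongr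
  refine hC N _ hN hX1 ι ω f a hcaps (hLe.trans (ENNReal.ofReal_le_ofReal ?_)) p hp
  have h1 : CS m k r D ≤ max (CS m k r D) 1 := le_max_left _ _
  have h2 : (σ / (2 * N)) ^ (-(m * (m * r) / k)) ≤
      (2 / σ) ^ ((m : ℝ) ^ 2 / k) * N ^ ((m : ℝ) ^ 2 / k) := by
    rw [← Real.mul_rpow (by positivity) hN0.le, Real.rpow_neg hδ0.le, ← Real.inv_rpow hδ0.le]
    have e : (σ / (2 * N))⁻¹ = 2 / σ * N := by
      field_simp
    rw [e]
    apply Real.rpow_le_rpow_of_exponent_le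
    · have h3 : 1 ≤ 2 / σ := by
        rw [le_div_iff₀ hσ]; linarith
      nlinarith
    · apply div_le_div_of_nonneg_right _ hk0.le
      have : (m : ℝ) * (m * r) ≤ m * (m * 1) := by gcongr
      nlinarith
  calc CS m k r D * ((σ / (2 * N)) ^ (-(m * (m * r) / k)) *
        θ ^ (-(1 / ((m : ℝ) + 1) + m / k)) * (1 + K + A + Λ) ^ (4 * m + m ^ 2)) *
        ((σ / (2 * N)) ^ ((m : ℝ) + 1) *
        (Fintype.card ι : ℝ) ^ (qe m ε - 1 / ((m : ℝ) + 1)))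
      ≤ max (CS m k r D) 1 * ((2 / σ) ^ ((m : ℝ) ^ 2 / k) * N ^ ((m : ℝ) ^ 2 / k) *
        θ ^ (-(1 / ((m : ℝ) + 1) + m / k)) * (1 + K + A + Λ) ^ (4 * m + m ^ 2)) *
        ((σ / (2 * N)) ^ ((m : ℝ) + 1) *
        (Fintype.card ι : ℝ) ^ (qe m ε - 1 / ((m : ℝ) + 1))) := by gcongr
    _ = _ := by
        rw [hE₀def]
        ring

end Pool.Agent.X160.Tr
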