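import Pool.Agent.H810R3.Tub.Compare
import Pool.Agent.X160.Pl.Fin
set_option autoImplicit false

/-!
# Boxes with planar hairbrushes
-/

open MeasureTheory Set Filter Topology ENNReal NNReal Metric

namespace Pool.Agent.X160.Tr.Sp

open Pool.Agent.H810R3.Tub (Vec Space dir nor box finrank_space Fb box_perp norm_dir norm_e
  box_closed lint_smul wv wv_pos compare arith1 arith2)
open Pool.Agent.TH705.RR (E tube)
open Pool.Agent.X160.Pl (mm KB)

variable {d : ℕ}

/-- The exponent. -/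
noncomputable def qd (d : ℕ) (ε : ℝ) : ℝ := ((d : ℝ) + 1) / ((d : ℝ) - min ε (1 / 2))

theorem qd_facts (hd : 1 ≤ d) {ε : ℝ} (hε : 0 < ε) :
    1 < qd d ε ∧ ((d : ℝ) + 1) / d < qd d ε ∧
      (d : ℝ) * qd d ε - d - 1 = min ε (1 / 2) * qd d ε := by
  have hd1 : (1 : ℝ) ≤ d := by exact_mod_cast hd
  set η : ℝ := min ε (1 / 2) with hη
  have hη0 : 0 < η := lt_min hε (by norm_num)
  have hη2 : η ≤ 1 / 2 := min_le_right _ _
  have hdη : 0 < (d : ℝ) - η := by linarith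
  have hq : qd d ε = ((d : ℝ) + 1) / (d - η) := rfl
  refine ⟨?_, ?_, ?_⟩
  · rw [hq, lt_div_iff₀ hdη]
    linarith
  · rw [hq]
    apply div_lt_div_of_pos_left (by positivity) hdη
    linarith
  · have : qd d ε * (d - η) = d + 1 := div_mul_cancel₀ _ hdη.ne'
    linarith

/-- **Comparison for all exponents.** -/
theorem fin_core (hd : 1 ≤ d) {ε κ E₀ : ℝ} (hε : 0 < ε) (hκ : 0 < κ) (hE₀ : 0 < E₀) :
    ∃ C : ℝ, 0 < C ∧ ∀ N X : ℝ, 1 ≤ N → 1 ≤ X → ∀ (ι : Type) [Fintype ι]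
      (ω : ι → Vec d) (f : ι → Fin d → Space d) (a : ι → Space d),
      κ * N ^ d ≤ (Fintype.card ι : ℝ) →
      (∀ i, Orthonormal ℝ (Fin.cons (nor (ω i)) (f i) : Fin (d + 1) → Space d)) →
      ∫⁻ y, Fb N ω f a y ^ (qd d ε) ≤
        ENNReal.ofReal (E₀ * X * N ^ (d + 2) * (Fintype.card ι : ℝ) ^ (qd d ε - 1 / (d : ℝ))) →
      ∀ p : ℝ≥0∞, 1 ≤ p →
        eLpNorm (fun y : Space d => ∑ i,
          (box N (nor (ω i)) (f i) (a i)).indicator (fun _ => (1 : ℝ)) y) p volume ≤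
        ENNReal.ofReal (C * X * N ^ ε) * eLpNorm (fun y : Space d => ∑ i,
          (box N (nor (ω i)) (f i) 0).indicator (fun _ => (1 : ℝ)) y) p volume := by
  obtain ⟨hq1, hqc, hηq⟩ := qd_facts hd hε
  set q : ℝ := qd d ε with hq
  have hd0 : (0 : ℝ) < d := by exact_mod_cast hd
  have hηε : min ε (1 / 2) ≤ ε := min_le_left _ _
  have hq0 : 0 < q := by linarith
  have hw0 : 0 < wv d := wv_pos d
  set b₀ : ℝ := (1 + (d : ℝ)) ^ (d + 1) * wv d with hb₀
  have hb0 : 0 < b₀ := by positivity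
  set C0 : ℝ := max 1 (max (E₀ * b₀ ^ (q - 1) * κ ^ (-(1 / (d : ℝ))))
    (E₀ * κ ^ (-(1 / (d : ℝ))) * 2 ^ (d + 1) / wv d)) with hC0
  have hC1 : 1 ≤ C0 := le_max_left _ _
  have hC2 : E₀ * b₀ ^ (q - 1) * κ ^ (-(1 / (d : ℝ))) ≤ C0 :=
    (le_max_left _ _).trans (le_max_right _ _)
  have hC3 : E₀ * κ ^ (-(1 / (d : ℝ))) * 2 ^ (d + 1) / wv d ≤ C0 :=
    (le_max_right _ _).trans (le_max_right _ _)
  have hC00 : 0 < C0 := by linarith
  refine ⟨C0 ^ (1 / q), Real.rpow_pos_of_pos hC00 _, ?_⟩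
  intro N X hN hX1 ι _ ω f a hcard hf hint p hp
  have hN0 : 0 < N := by linarith
  have hX0 : 0 < X := by linarith
  have hc0 : (0 : ℝ) < (Fintype.card ι : ℝ) := lt_of_lt_of_le (by positivity) hcard
  have hne : Nonempty ι := by
    rw [← Fintype.card_pos_iff]
    exact_mod_cast hc0
  set D : ℝ := C0 ^ (1 / q) * X ^ (1 / q) * N ^ ε with hD
  have hD1 : 1 ≤ D := by
    have h1 : 1 ≤ C0 ^ (1 / q) := Real.one_le_rpow hC1 (by positivity)
    have h2 : 1 ≤ X ^ (1 / q) := Real.one_le_rpow hX1 (by positivity)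
    have h3 : 1 ≤ N ^ ε := Real.one_le_rpow hN hε.le
    calc (1 : ℝ) = 1 * 1 * 1 := by ring
      _ ≤ C0 ^ (1 / q) * X ^ (1 / q) * N ^ ε := by gcongr
  have hDq : D ^ q = C0 * X * N ^ (ε * q) := by
    rw [hD, Real.mul_rpow (by positivity) (by positivity),
      Real.mul_rpow (by positivity) (by positivity),
      ← Real.rpow_mul hC00.le, ← Real.rpow_mul hX0.le, ← Real.rpow_mul hN0.le,
      one_div_mul_cancel hq0.ne', Real.rpow_one, Real.rpow_one]
  have hDX : ENNReal.ofReal D ≤ ENNReal.ofReal (C0 ^ (1 / q) * X * N ^ ε) := by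
    apply ENNReal.ofReal_le_ofReal
    have h1 : X ^ (1 / q) ≤ X := by
      calc X ^ (1 / q) ≤ X ^ (1 : ℝ) := by
            apply Real.rpow_le_rpow_of_exponent_le hX1
            rw [div_le_one hq0]
            exact hq1.le
        _ = X := Real.rpow_one X
    rw [hD]
    gcongr
  refine le_trans (compare d hN hq1 (by positivity) hD1 ω f hf a hint ?_ ?_ p hp) ?_
  · rw [hDq]
    exact arith1 hd0 hE₀ hX0 hq1 hηq hηε hN hκ hcard hb0 hC2
  · rw [hDq]
    exact arith2 hd0 hE₀ hX0 hq1 hε hN hκ hcard hw0 hC3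
  · gcongr

/-- The other model of the space. -/
noncomputable def phi (d : ℕ) : Space d ≃ₗᵢ[ℝ] E (d + 1) :=
  (stdOrthonormalBasis ℝ (Space d)).equiv (EuclideanSpace.basisFun (Fin (d + 1)) ℝ)
    (finCongr finrank_space)

/-- The constant of the scaling. -/
noncomputable def cc (d : ℕ) (σ N : ℝ) : ℝ := σ / (2 * (1 + (d : ℝ)) * N ^ 2)

/-- The boxes are contained in tubes. -/
theorem box_sub {σ N : ℝ} (hσ : 0 < σ) (hσ1 : σ ≤ 1) (hN : 1 ≤ N) {ω : Vec d}
    {f : Fin d → Space d} (h : Orthonormal ℝ (Fin.cons (nor ω) f : Fin (d + 1) → Space d))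
    {a y : Space d} (hy : y ∈ box N (nor ω) f a) :
    cc d σ N • phi d y ∈ tube (σ / (4 * N)) (cc d σ N • phi d a) (phi d (nor ω)) := by
  have hN0 : 0 < N := by linarith
  have hd0 : (0 : ℝ) ≤ d := Nat.cast_nonneg d
  have hc0 : 0 < cc d σ N := by unfold cc; positivity
  have h1 := box_perp hN h hy
  have h2 := hy.1
  have e0 : cc d σ N • phi d y - cc d σ N • phi d a = phi d (cc d σ N • (y - a)) := by
    rw [map_smul, map_sub, smul_sub]
  refine ⟨?_, ?_⟩
  · rw [e0, LinearIsometryEquiv.inner_map_map, real_inner_smul_left, real_inner_comm, abs_mul,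
      abs_of_pos hc0]
    calc cc d σ N * |inner ℝ (nor ω) (y - a)| ≤ cc d σ N * (N ^ 2 / 2) := by gcongr
      _ = σ / (1 + d) * (1 / 4) := by
          unfold cc
          field_simp
          norm_num
      _ ≤ 1 * (1 / 4) := by
          gcongr
          rw [div_le_one (by positivity)]
          linarith
      _ ≤ 1 / 2 := by norm_num
  · rw [e0, LinearIsometryEquiv.inner_map_map, real_inner_smul_left, real_inner_comm]
    have e1 : phi d (cc d σ N • (y - a)) - (cc d σ N * inner ℝ (nor ω) (y - a)) • phi d (nor ω) =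
        phi d (cc d σ N • ((y - a) - (inner ℝ (nor ω) (y - a) : ℝ) • nor ω)) := by
      rw [← map_smul, ← map_sub]
      congr 1
      module
    rw [e1, LinearIsometryEquiv.norm_map, norm_smul, Real.norm_of_nonneg hc0.le]
    calc cc d σ N * ‖(y - a) - (inner ℝ (nor ω) (y - a) : ℝ) • nor ω‖
        ≤ cc d σ N * (d * N / 2) := by gcongr
      _ = σ / (4 * N) * (d / (1 + d)) := by
          unfold cc
          field_simp
          ring
      _ ≤ σ / (4 * N) * 1 := by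
          gcongr
          rw [div_le_one (by positivity)]
          linarith
      _ = _ := mul_one _

/-- The normals are separated. -/
theorem nor_sep {ω ω' : Vec d} (h : ‖ω‖ ≤ 1) (h' : ‖ω'‖ ≤ 1) :
    ‖ω - ω'‖ ≤ 4 * ‖nor ω - nor ω'‖ := by
  set v : Vec d := -(2 : ℝ) • ω with hv
  set w : Vec d := -(2 : ℝ) • ω' with hw
  have hv2 : ‖v‖ ≤ 2 := by
    rw [hv, norm_smul, norm_neg]
    norm_num
    exact h
  have hw2 : ‖w‖ ≤ 2 := by
    rw [hw, norm_smul, norm_neg]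
    norm_num
    exact h'
  set A : ℝ := √(1 + ‖v‖ ^ 2) with hA
  set B : ℝ := √(1 + ‖w‖ ^ 2) with hB
  have hA0 : 0 < A := Real.sqrt_pos.2 (by positivity)
  have hB0 : 0 < B := Real.sqrt_pos.2 (by positivity)
  have hA5 : A ≤ 9 / 4 := by
    rw [hA]
    apply Real.sqrt_le_iff.2
    constructor
    · norm_num
    · nlinarith [norm_nonneg v]
  have e1 : (nor ω).fst = A⁻¹ • v := rfl
  have e2 : (nor ω).snd = A⁻¹ := by
    show A⁻¹ * 1 = A⁻¹
    rw [mul_one]
  have e3 : (nor ω').fst = B⁻¹ • w := rfl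
  have e4 : (nor ω').snd = B⁻¹ := by
    show B⁻¹ * 1 = B⁻¹
    rw [mul_one]
  set Δ : Space d := nor ω - nor ω' with hΔ
  have e5 : Δ.fst = A⁻¹ • v - B⁻¹ • w := by
    rw [hΔ]
    show (nor ω).fst - (nor ω').fst = _
    rw [e1, e3]
  have e6 : Δ.snd = A⁻¹ - B⁻¹ := by
    rw [hΔ]
    show (nor ω).snd - (nor ω').snd = _
    rw [e2, e4]
  have h5 : v - w = A • Δ.fst - (A * Δ.snd) • w := by
    rw [e5, e6, smul_sub, smul_inv_smul₀ hA0.ne', mul_sub, mul_inv_cancel₀ hA0.ne', sub_smul,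
      one_smul, smul_smul]
    abel
  have hn := Pool.Agent.H810R3.Tub.norm_space_sq Δ
  have h6 : ‖Δ.fst‖ ≤ ‖Δ‖ := by
    apply le_of_sq_le_sq _ (norm_nonneg _)
    rw [hn]
    nlinarith [sq_nonneg Δ.snd]
  have h7 : |Δ.snd| ≤ ‖Δ‖ := by
    apply le_of_sq_le_sq _ (norm_nonneg _)
    rw [hn, sq_abs]
    nlinarith [sq_nonneg ‖Δ.fst‖]
  have h8 : ‖v - w‖ ≤ 8 * ‖Δ‖ := by
    rw [h5]
    refine (norm_sub_le _ _).trans ?_
    rw [norm_smul, norm_smul, Real.norm_of_nonneg hA0.le, Real.norm_eq_abs, abs_mul,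
      abs_of_pos hA0]
    have hΔ0 := norm_nonneg Δ
    calc A * ‖Δ.fst‖ + A * |Δ.snd| * ‖w‖ ≤ 9 / 4 * ‖Δ‖ + 9 / 4 * ‖Δ‖ * 2 := by gcongr
      _ ≤ 8 * ‖Δ‖ := by linarith
  have h9 : ‖v - w‖ = 2 * ‖ω - ω'‖ := by
    rw [hv, hw, ← smul_sub, norm_smul, norm_neg]
    norm_num
  linarith

/-- The integral form of the inequality. -/
theorem int_of_KB {n : ℕ} (hn : 3 ≤ n) {q A : ℝ} (hq : 0 < q) (hA : 0 ≤ A) {δ : ℝ} (hδ : 0 < δ)
    {ι : Type} [Fintype ι] {a e : ι → E n} (h : KB q A δ a e) :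
    ∫⁻ x, mm δ a e x ^ q ≤ ENNReal.ofReal (A ^ q * (δ ^ ((n : ℝ) - 1) *
        (Fintype.card ι : ℝ) ^ (q - 1 / ((n : ℝ) - 1)))) := by
  unfold KB at h
  have hn2 : (2 : ℝ) ≤ (n : ℝ) - 1 := by
    have : (3 : ℝ) ≤ n := by exact_mod_cast hn
    linarith
  rw [eLpNorm_eq_lintegral_rpow_enorm_toReal (by
    rw [ne_eq, ENNReal.ofReal_eq_zero, not_le]; exact hq) ENNReal.ofReal_ne_top,
    ENNReal.toReal_ofReal hq.le] at h
  simp only [Pool.Agent.X160.Pl.enorm_mult] at h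
  have h1 := ENNReal.rpow_le_rpow h hq.le
  rw [← ENNReal.rpow_mul, one_div_mul_cancel hq.ne', ENNReal.rpow_one,
    ENNReal.ofReal_rpow_of_nonneg (by positivity) hq.le] at h1
  refine h1.trans (le_of_eq ?_)
  congr 1
  rw [Real.mul_rpow hA (by positivity), Real.mul_rpow (by positivity) (by positivity),
    ← Real.rpow_mul hδ.le, ← Real.rpow_mul (by positivity)]
  congr 2
  · congr 1
    field_simp
  · congr 1
    field_simp

/-- **From tubes to boxes**, by an isotropic change of variables. -/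
theorem push (hd : 2 ≤ d) {ε σ κ A₀ : ℝ} (hε : 0 < ε) (hσ : 0 < σ) (hσ1 : σ ≤ 1) (hκ : 0 < κ)
    (hA₀ : 0 < A₀) :
    ∃ C : ℝ, 0 < C ∧ ∀ N X : ℝ, 1 ≤ N → 1 ≤ X → ∀ (ι : Type) [Fintype ι]
      (ω : ι → Vec d) (f : ι → Fin d → Space d) (a : ι → Space d),
      κ * N ^ d ≤ (Fintype.card ι : ℝ) →
      (∀ i, Orthonormal ℝ (Fin.cons (nor (ω i)) (f i) : Fin (d + 1) → Space d)) →
      KB (qd d ε) (A₀ * X ^ ((d : ℝ) / qd d ε)) (σ / (4 * N)) (fun i => cc d σ N • phi d (a i))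
        (fun i => phi d (nor (ω i))) →
      ∀ p : ℝ≥0∞, 1 ≤ p →
        eLpNorm (fun y : Space d => ∑ i,
          (box N (nor (ω i)) (f i) (a i)).indicator (fun _ => (1 : ℝ)) y) p volume ≤
        ENNReal.ofReal (C * X ^ d * N ^ ε) * eLpNorm (fun y : Space d => ∑ i,
          (box N (nor (ω i)) (f i) 0).indicator (fun _ => (1 : ℝ)) y) p volume := by
  have hd1 : 1 ≤ d := by omega
  have hd0 : (0 : ℝ) < d := by exact_mod_cast hd1
  obtain ⟨hq1, hqc, hηq⟩ := qd_facts hd1 hε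
  have hq0 : 0 < qd d ε := by linarith
  obtain ⟨C, hC0, hC⟩ := fin_core hd1 (E₀ := (2 * (1 + (d : ℝ)) / σ) ^ (d + 1) * A₀ ^ (qd d ε) *
    (σ / 4) ^ d) hε hκ (by positivity)
  refine ⟨C, hC0, ?_⟩
  intro N X hN hX ι _ ω f a hcard hf hKB p hp
  have hN0 : 0 < N := by linarith
  have hX0 : 0 < X := by linarith
  refine hC N (X ^ d) hN (one_le_pow₀ hX) ι ω f a hcard hf ?_ p hp
  set q : ℝ := qd d ε with hq
  set c : ℝ := cc d σ N with hc
  have hc0 : 0 < c := by rw [hc]; unfold cc; positivity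
  set a' : ι → E (d + 1) := fun i => c • phi d (a i) with ha'
  set e' : ι → E (d + 1) := fun i => phi d (nor (ω i)) with he'
  have h1 := int_of_KB (by omega : 3 ≤ d + 1) hq0 (by positivity) (by positivity) hKB
  have hpt : ∀ y : Space d, Fb N ω f a y ≤ mm (σ / (4 * N)) a' e' (c • phi d y) := by
    intro y
    unfold Fb mm
    refine Finset.sum_le_sum fun i _ => ?_
    by_cases hy : y ∈ box N (nor (ω i)) (f i) (a i)
    · rw [indicator_of_mem hy, indicator_of_mem (box_sub hσ hσ1 hN (hf i) hy)]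
    · rw [indicator_of_notMem hy]
      exact zero_le
  have hmm : Measurable (fun z : E (d + 1) => mm (σ / (4 * N)) a' e' (c • z) ^ q) := by
    have h2 : Measurable (mm (σ / (4 * N)) a' e') := by
      unfold mm
      exact Finset.measurable_fun_sum _ (fun i _ =>
        measurable_const.indicator (Pool.Agent.X160.Pl.tube_ms _ _ _))
    exact (h2.comp (measurable_const_smul c)).pow_const _
  have hmp : MeasurePreserving (phi d) volume volume := (phi d).measurePreserving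
  calc ∫⁻ y, Fb N ω f a y ^ q
      ≤ ∫⁻ y : Space d, mm (σ / (4 * N)) a' e' (c • phi d y) ^ q :=
        lintegral_mono fun y => ENNReal.rpow_le_rpow (hpt y) hq0.le
    _ = ∫⁻ z : E (d + 1), mm (σ / (4 * N)) a' e' (c • z) ^ q :=
        hmp.lintegral_comp hmm
    _ = ENNReal.ofReal |(c ^ (d + 1))⁻¹| * ∫⁻ z : E (d + 1), mm (σ / (4 * N)) a' e' z ^ q := by
        rw [lint_smul volume hc0.ne' (fun z : E (d + 1) => mm (σ / (4 * N)) a' e' z ^ q),
          finrank_euclideanSpace_fin]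
    _ ≤ ENNReal.ofReal |(c ^ (d + 1))⁻¹| * ENNReal.ofReal ((A₀ * X ^ ((d : ℝ) / q)) ^ q *
          ((σ / (4 * N)) ^ (((d + 1 : ℕ) : ℝ) - 1) *
          (Fintype.card ι : ℝ) ^ (q - 1 / (((d + 1 : ℕ) : ℝ) - 1)))) :=
        mul_le_mul' le_rfl h1
    _ = _ := by
        rw [← ENNReal.ofReal_mul (abs_nonneg _)]
        congr 1
        have e1 : ((d + 1 : ℕ) : ℝ) - 1 = d := by push_cast; ring
        have e2 : |(c ^ (d + 1))⁻¹| = (2 * (1 + (d : ℝ)) / σ) ^ (d + 1) * N ^ (2 * (d + 1)) := by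
          rw [abs_inv, abs_of_pos (by positivity), ← inv_pow, hc]
          unfold cc
          rw [inv_div, pow_mul N 2 (d + 1), ← mul_pow]
          congr 1
          field_simp
        have e3 : (A₀ * X ^ ((d : ℝ) / q)) ^ q = A₀ ^ q * X ^ d := by
          rw [Real.mul_rpow hA₀.le (by positivity), ← Real.rpow_mul hX0.le,
            div_mul_cancel₀ _ hq0.ne', Real.rpow_natCast]
        have e4 : (σ / (4 * N)) ^ d * N ^ d = (σ / 4) ^ d := by
          rw [← mul_pow]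
          congr 1
          field_simp
        rw [e1, e2, e3, Real.rpow_natCast, ← e4, show 2 * (d + 1) = d + (d + 2) by ring,
          pow_add N d (d + 2)]
        ring

end Pool.Agent.X160.Tr.Sp
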